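import Pool.Agent.Q174.Bes.Count
import Pool.Agent.Q174.Bes.Series

/-!
# MP_cdfc49_an, Q1: the number of nonreal zeros of derivatives of Bessel functions

The claim of Q1 is false: for `n = 4`, `s = 2`, `ν = -1/2` (in the interval `(n-2s-1, n-2s) = (-1, 0)`)
the zeros of the fourth derivative of `J_ν` off both axes have total multiplicity at most `4`, while
the claim predicts `8` nonreal zeros, none of them purely imaginary.

Proof.  Up to a constant, `G(z) = (w^2 - (9/2) w + 105/16) cos z + (15/2 - 2 w) z sin z`, `w = z^2`.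
With `T = z tan z` the zeros satisfy `T = w/2 - 3/8 + (15/8)/(w - 15/4)`.  The kernel
`(T(z) - conj T(ζ)) / (w - conj w_0) = int_0^1 cos(zs) conj(cos(ζs)) ds / (cos z conj(cos ζ))` is
positive, and comparing it with the kernel `1/2 - (15/8) r conj(r_0)`, `r = 1/(w - 15/4)`, of the right
hand side gives, for a zero `ζ` off the axes and every `z` off the axes, a lower bound for `|G(z)|` by a
positive multiple of `|z^2 - ζ^2|`.  So `z^2` takes only one conjugate pair of nonreal values at the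
zeros, and these zeros are simple.
-/

set_option autoImplicit false

namespace Pool.Agent.Results.MP_cdfc49_an.FourthDerivative

open Complex Pool.Agent.Q174.Bes
open scoped Nat

/-- The entire function `G_{ν,n}` with `J_ν^{(n)}(z) = 2^{-n} (z/2)^{ν-n} G_{ν,n}(z)`. -/
noncomputable def G (ν : ℝ) (n : ℕ) (z : ℂ) : ℂ :=
  ∑' m : ℕ, (-1) ^ m * (∏ j ∈ Finset.range n, ((ν : ℂ) + 2 * m - j)) /
    ((m ! : ℂ) * (Real.Gamma (ν + m + 1) : ℂ)) * (z / 2) ^ (2 * m)

/-- `f` has exactly `k` zeros in `S` counted with multiplicity, where `S` is a set of zeros of `f`. -/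
def ExactCount (f : ℂ → ℂ) (S : Set ℂ) (k : ℕ) : Prop :=
  S.Finite ∧ ∑ᶠ z ∈ S, analyticOrderNatAt f z = k

/-- The statement of Q1. -/
def Q1 : Prop :=
  ∀ n s : ℕ, 1 ≤ s → ∀ ν : ℝ, (n : ℝ) - 2 * s - 1 < ν → ν < n - 2 * s →
    ExactCount (G ν n) {z | G ν n z = 0 ∧ z.im ≠ 0} (4 * s) ∧
      ∀ y : ℝ, y ≠ 0 → G ν n (y * I) ≠ 0

/-- The closed form for `ν = -1/2`, `n = 4`, without the factor `1/√π`. -/
noncomputable def g (z : ℂ) : ℂ :=
  ((z ^ 2) ^ 2 - 9 / 2 * z ^ 2 + 105 / 16) * cos z + (15 / 2 - 2 * z ^ 2) * (z * sin z)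

theorem G_eq (z : ℂ) : G (-1 / 2) 4 z = ((√Real.pi : ℝ) : ℂ)⁻¹ * g z := by
  have h0 := hasSum_even z 0
  have h1 := hasSum_odd z 0
  have h2 := hasSum_even z 1
  have h3 := hasSum_odd z 1
  have h4 := hasSum_even z 2
  have h := (((((h0.mul_left (105 / 16)).add (h1.mul_left (-15 / 2))).add (h2.mul_left (9 / 2))).add
    (h3.mul_left (-2))).add h4).mul_left ((√Real.pi : ℝ) : ℂ)⁻¹
  have hv : ((√Real.pi : ℝ) : ℂ)⁻¹ *
      (105 / 16 * ((-1) ^ 0 * z ^ (2 * 0) * cos z) +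
        -15 / 2 * ((-1) ^ (0 + 1) * z ^ (2 * 0 + 1) * sin z) +
        9 / 2 * ((-1) ^ 1 * z ^ (2 * 1) * cos z) +
        -2 * ((-1) ^ (1 + 1) * z ^ (2 * 1 + 1) * sin z) +
        (-1) ^ 2 * z ^ (2 * 2) * cos z) = ((√Real.pi : ℝ) : ℂ)⁻¹ * g z := by
    unfold g
    ring
  rw [hv] at h
  refine (h.congr_fun ?_).tsum_eq
  intro m
  have hg := congrArg (fun x : ℝ => (x : ℂ)) (gamma_half m)
  simp only [ofReal_mul, ofReal_natCast, ofReal_pow, ofReal_ofNat] at hg
  have hpi : ((√Real.pi : ℝ) : ℂ) ≠ 0 := by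
    rw [Ne, ofReal_eq_zero]
    positivity
  have hf : ((2 * m)! : ℂ) ≠ 0 := by exact_mod_cast (2 * m).factorial_ne_zero
  have h4 : (4 : ℂ) ^ m ≠ 0 := pow_ne_zero _ (by norm_num)
  have hD : (m ! : ℂ) * (Real.Gamma (-1 / 2 + m + 1) : ℂ) =
      (2 * m)! * ((√Real.pi : ℝ) : ℂ) / 4 ^ m := by
    rw [eq_div_iff h4]
    exact hg
  rw [hD]
  have hz : (z / 2) ^ (2 * m) = z ^ (2 * m) / 4 ^ m := by
    rw [div_pow, pow_mul 2 2 m]
    norm_num
  rw [hz]
  simp only [desc_eval, Finset.prod_range_succ, Finset.prod_range_zero]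
  push_cast
  field_simp
  ring

theorem pi_ne : ((√Real.pi : ℝ) : ℂ)⁻¹ ≠ 0 := by
  rw [Ne, inv_eq_zero, ofReal_eq_zero]
  positivity

theorem ineq_G : Ineq (G (-1 / 2) 4) := by
  rw [funext G_eq]
  exact ineq4'.const_mul pi_ne

theorem diff_G : Differentiable ℂ (G (-1 / 2) 4) := by
  rw [funext G_eq]
  unfold g
  fun_prop

/-- Q1 is false.  More precisely, for `ν = -1/2` (so `n = 4`, `s = 2`) the zeros of `J_ν^{(4)}` which are
neither real nor purely imaginary have total multiplicity at most `4`, not `8`. -/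
theorem result : ¬ Q1 ∧
    ∀ S : Finset ℂ, (∀ z ∈ S, G (-1 / 2) 4 z = 0 ∧ z.re ≠ 0 ∧ z.im ≠ 0) →
      ∑ z ∈ S, analyticOrderNatAt (G (-1 / 2) 4) z ≤ 4 := by
  have key : ∀ S : Finset ℂ, (∀ z ∈ S, G (-1 / 2) 4 z = 0 ∧ z.re ≠ 0 ∧ z.im ≠ 0) →
      ∑ z ∈ S, analyticOrderNatAt (G (-1 / 2) 4) z ≤ 4 := by
    intro S hS
    exact ineq_G.count diff_G S (fun z hz => ⟨(hS z hz).2.1, (hS z hz).2.2, (hS z hz).1⟩)
  refine ⟨?_, key⟩
  intro h
  obtain ⟨⟨hfin, hsum⟩, him⟩ := h 4 2 (by norm_num) (-1 / 2) (by norm_num) (by norm_num)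
  rw [finsum_mem_eq_finite_toFinset_sum _ hfin] at hsum
  have := key hfin.toFinset (by
    intro z hz
    rw [Set.Finite.mem_toFinset] at hz
    refine ⟨hz.1, ?_, hz.2⟩
    intro hre
    apply him z.im hz.2
    have : ((z.im : ℂ) * I) = z := by
      apply Complex.ext <;> simp [hre]
    rw [this]
    exact hz.1)
  omega

end Pool.Agent.Results.MP_cdfc49_an.FourthDerivative
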